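import Pool.Agent.Helper10.Fam.Stmts

set_option autoImplicit false

/-!
# COMP: the list of cusps is complete
-/

namespace Pool.Agent.Helper10.Fam

open Pool.Agent.Helper10.Lor
open scoped BigOperators

theorem comp_closedAt (W Ex : List (List ℕ)) (w : List ℕ) : ∀ (gs as : List ℕ) (i0 : ℕ),
    closedAt W Ex w gs as i0 = true → ∀ j < as.length,
      gs.getD j 0 ≤ 2 * as.getD j 0 ∨ memL (refl (gs.getD j 0) w (i0 + j)) W = true ∨
        exLe (refl (gs.getD j 0) w (i0 + j)) Ex = true
  | [], [], _, _, j, hj => by simp at hj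
  | [], _ :: _, _, h, _, _ => by simp [closedAt] at h
  | _ :: _, [], _, h, _, _ => by simp [closedAt] at h
  | g :: gs, a :: as, i0, h, j, hj => by
    rw [closedAt, Bool.and_eq_true] at h
    obtain ⟨h1, h2⟩ := h
    cases j with
    | zero =>
      rw [Bool.or_eq_true, Bool.or_eq_true] at h1
      simp only [List.getD_cons_zero, Nat.add_zero]
      rcases h1 with (h1 | h1) | h1
      · left
        exact Nat.le_of_ble_eq_true h1
      · right; left; exact h1
      · right; right; exact h1
    | succ j =>
      have := comp_closedAt W Ex w gs as (i0 + 1) h2 j (by simpa using hj)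
      simp only [List.getD_cons_succ]
      have e : i0 + (j + 1) = i0 + 1 + j := by omega
      rw [e]
      exact this

theorem comp_listOK (D : Dat) (Ex : List (List ℕ)) : ∀ (L : List (List ℕ)),
    listOK D Ex L = true → ∀ m ∈ L, m.length = D.n + 2 ∧
      closedAt D.W Ex m (mv D.G m) m 0 = true
  | [], _, m, hm => by simp at hm
  | w :: t, h, m, hm => by
    rw [listOK, Bool.and_eq_true, Bool.and_eq_true, Bool.and_eq_true] at h
    obtain ⟨⟨⟨h1, h2⟩, h3⟩, h4⟩ := h
    rcases List.mem_cons.1 hm with rfl | hm
    · exact ⟨Nat.eq_of_beq_eq_true h1, h3⟩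
    · exact comp_listOK D Ex t h4 m hm

theorem comp_exLe (w : List ℕ) : ∀ (Ex : List (List ℕ)), exLe w Ex = true →
    ∃ e ∈ Ex, leK 100000 e w = true
  | [], h => by simp [exLe] at h
  | e :: t, h => by
    rw [exLe, Bool.or_eq_true] at h
    rcases h with h | h
    · exact ⟨e, by simp, h⟩
    · obtain ⟨e', h1, h2⟩ := comp_exLe w t h
      exact ⟨e', by simp [h1], h2⟩

theorem comp_exOK (D : Dat) : ∀ (Ex : List (List ℕ)), exOK D Ex = true → ∀ e ∈ Ex,
    e.length = D.n + 2 ∧ 2 * dn e e + 100 * D.c * (100 * D.c) ≤ dn e (mv D.G e)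
  | [], _, e, he => by simp at he
  | f :: t, h, e, he => by
    rw [exOK, Bool.and_eq_true, Bool.and_eq_true] at h
    obtain ⟨⟨h1, h2⟩, h3⟩ := h
    rcases List.mem_cons.1 he with rfl | he
    · exact ⟨Nat.eq_of_beq_eq_true h1, Nat.le_of_ble_eq_true h2⟩
    · exact comp_exOK D t h3 e he

theorem comp_refl_len (g : ℕ) : ∀ (m : List ℕ) (i : ℕ), (refl g m i).length = m.length
  | [], _ => by simp [refl]
  | a :: s, 0 => by simp [refl]
  | a :: s, i + 1 => by simp [refl, comp_refl_len g s i]

theorem comp_refl_getD (g : ℕ) : ∀ (m : List ℕ) (i j : ℕ), i < m.length →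
    (refl g m i).getD j 0 = if j = i then g - m.getD i 0 else m.getD j 0
  | [], i, j, h => by simp at h
  | a :: s, 0, j, _ => by
    cases j with
    | zero => simp [refl]
    | succ j => simp [refl]
  | a :: s, i + 1, j, h => by
    cases j with
    | zero => simp [refl]
    | succ j =>
      simp only [refl, List.getD_cons_succ, comp_refl_getD g s i j (by simpa using h)]
      simp

theorem comp_sum_refl (g : ℕ) : ∀ (m : List ℕ) (i : ℕ), i < m.length → g < 2 * m.getD i 0 →
    (refl g m i).sum < m.sum
  | [], i, h, _ => by simp at h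
  | a :: s, 0, _, h => by
    simp only [refl, List.sum_cons, List.getD_cons_zero] at h ⊢
    omega
  | a :: s, i + 1, h, h' => by
    have := comp_sum_refl g s i (by simpa using h) (by simpa using h')
    simp only [refl, List.sum_cons]
    omega

theorem comp_ext {m m' : List ℕ} (h : m.length = m'.length)
    (h' : ∀ i < m.length, m.getD i 0 = m'.getD i 0) : m = m' := by
  refine List.ext_getElem h fun i h1 h2 => ?_
  have := h' i h1
  rwa [List.getD_eq_getElem _ _ h1, List.getD_eq_getElem _ _ h2] at this

theorem comp_form_sub {n : ℕ} (v a : LV n) (k : ℝ) :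
    form (v - k • a) a = form v a - k * form a a := by
  unfold form
  simp only [Prod.fst_sub, Prod.snd_sub, Prod.smul_fst, Prod.smul_snd, smul_eq_mul,
    inner_sub_left, real_inner_smul_left]
  ring

theorem st_COMP (hA : ST_LSTA) (hB : ST_LSTB) (hC : ST_LSTC) (hAl : ST_ALPH) (hP : ST_PT)
    (hO : ST_ORB) : ST_COMP := by
  intro D β hD hβ Ex hEx p hp hx
  rw [cuspsOK, Bool.and_eq_true, Bool.and_eq_true, Bool.and_eq_true] at hEx
  obtain ⟨⟨⟨hex, hw0⟩, hnd⟩, hlist⟩ := hEx
  have hw0W : D.w0 ∈ D.W := (hB.memL _ _).1 hw0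
  have hinj : ∀ m m' : List ℕ, m.length = D.n + 2 → m'.length = D.n + 2 →
      wv D β m = wv D β m' → m = m' := by
    intro m m' h1 h2 h
    refine comp_ext (h1.trans h2.symm) fun i hi => ?_
    have := hAl.inj D β hD hβ _ _ h i (by rw [← h1]; exact hi)
    unfold fn at this
    exact_mod_cast this
  have key : ∀ N : ℕ, ∀ m : List ℕ, m.sum = N → m.length = D.n + 2 →
      wv D β m ∈ Orb (latOf β) → uval (wv D β m) p < (D.c : ℝ) / 1000 → m ∈ D.W := by
    intro N
    induction N using Nat.strong_induction_on with
    | _ N ih =>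
      intro m hN hlen hm hu
      by_cases hdom : ∀ i < D.n + 2, 0 ≤ form (wv D β m) (alp D β i)
      · have h1 := hO.dom D β hD hβ _ hm hdom
        have h2 : wv D β m = wv D β D.w0 := by rw [h1, hAl.wv_w0 D β hD]
        rw [hinj m D.w0 hlen hD.lenw h2]
        exact hw0W
      push Not at hdom
      obtain ⟨i, hi, hneg⟩ := hdom
      have hform := hO.form_wv D β hD hβ m hlen i hi
      set g : ℕ := (mv D.G m).getD i 0 with hg
      have hlt : g < 2 * m.getD i 0 := by
        rw [hform] at hneg
        have : (g : ℝ) < 2 * ((m.getD i 0 : ℕ) : ℝ) := by linarith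
        exact_mod_cast this
      -- coordinates of the reflected vector
      have horb' := hO.rf_orb D β hD hβ _ hm i hi
      obtain ⟨m'', hm''len, hm''⟩ := hO.coord D β hD hβ _ horb'
      have hrf : rf D β i (wv D β m) =
          rv D β (fun j => fn m j + if j = i then ((g : ℝ) - 2 * ((m.getD i 0 : ℕ) : ℝ)) else 0) := by
        unfold rf
        rw [hform]
        unfold wv rv
        have : ∑ j ∈ Finset.range (D.n + 2), (fn m j + if j = i then
            ((g : ℝ) - 2 * ((m.getD i 0 : ℕ) : ℝ)) else 0) • alp D β j =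
            ∑ j ∈ Finset.range (D.n + 2), fn m j • alp D β j +
              ((g : ℝ) - 2 * ((m.getD i 0 : ℕ) : ℝ)) • alp D β i := by
          simp only [add_smul, Finset.sum_add_distrib]
          congr 1
          rw [Finset.sum_eq_single i]
          · simp
          · intro j _ hj; simp [hj]
          · intro h; exact absurd (Finset.mem_range.2 hi) h
        rw [this]
        abel
      have hle : m.getD i 0 ≤ g := by
        have h1 : rv D β (fn m'') = rv D β (fun j => fn m j + if j = i then
            ((g : ℝ) - 2 * ((m.getD i 0 : ℕ) : ℝ)) else 0) := by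
          rw [← hrf, hm'']; rfl
        have h2 := hAl.inj D β hD hβ _ _ h1 i hi
        simp only [if_true] at h2
        have h3 : (0 : ℝ) ≤ fn m'' i := by unfold fn; positivity
        rw [h2] at h3
        unfold fn at h3
        have : ((m.getD i 0 : ℕ) : ℝ) ≤ g := by linarith
        exact_mod_cast this
      have hrw := hO.rf_wv D β hD hβ m hlen i hi hle
      have hilen : i < m.length := by rw [hlen]; exact hi
      have hlen' : (refl g m i).length = D.n + 2 := by rw [comp_refl_len, hlen]
      have hu' : uval (wv D β (refl g m i)) p < (D.c : ℝ) / 1000 := by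
        rw [← hrw]
        have e : uval (rf D β i (wv D β m)) p = uval (wv D β m) p +
            form (wv D β m) (alp D β i) * form (vec p) (alp D β i) := by
          unfold uval rf form
          simp only [Prod.fst_sub, Prod.snd_sub, Prod.smul_fst, Prod.smul_snd, smul_eq_mul,
            inner_sub_right, inner_smul_right]
          ring
        rw [e]
        have hxi := hx i hi
        unfold xc at hxi
        rw [if_pos hi] at hxi
        nlinarith
      have hmem := ih (refl g m i).sum (by rw [← hN]; exact comp_sum_refl g m i hilen hlt)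
        (refl g m i) rfl hlen' (by rw [← hrw]; exact horb') hu'
      obtain ⟨-, hcl⟩ := comp_listOK D Ex D.W hlist _ hmem
      have hcl' := comp_closedAt _ _ _ _ _ 0 hcl i (by rw [hlen']; exact hi)
      rw [Nat.zero_add] at hcl'
      -- the number (G m')_i
      have hform' := hO.form_wv D β hD hβ _ hlen' i hi
      have hself : form (wv D β (refl g m i)) (alp D β i) = -form (wv D β m) (alp D β i) := by
        rw [← hrw]
        unfold rf
        have h2 := hAl.form_alp D β hD hβ i hi i hi
        rw [if_pos rfl, hD.diagG i hi] at h2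
        rw [comp_form_sub, h2]
        push_cast
        ring
      set g' : ℕ := (mv D.G (refl g m i)).getD i 0 with hg'
      have hgi : (refl g m i).getD i 0 = g - m.getD i 0 := by
        rw [comp_refl_getD g m i i hilen, if_pos rfl]
      have hg'eq : g' + m.getD i 0 = (g - m.getD i 0) + (2 * m.getD i 0 - g) +
          (g - m.getD i 0) + m.getD i 0 := by
        have h3 : (g' : ℝ) - 2 * (((g - m.getD i 0 : ℕ) : ℕ) : ℝ) =
            -((g : ℝ) - 2 * ((m.getD i 0 : ℕ) : ℝ)) := by
          rw [← hgi, ← hform', hself, hform]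
        have h4 : (g' : ℤ) - 2 * ((g - m.getD i 0 : ℕ) : ℤ) =
            -((g : ℤ) - 2 * ((m.getD i 0 : ℕ) : ℤ)) := by exact_mod_cast h3
        omega
      have hrr : refl g' (refl g m i) i = m := by
        refine comp_ext (by rw [comp_refl_len, comp_refl_len]) fun j hj => ?_
        have hi' : i < (refl g m i).length := by rw [comp_refl_len]; exact hilen
        rw [comp_refl_getD g' _ i j hi', comp_refl_getD g m i j hilen, hgi]
        by_cases hji : j = i
        · subst hji
          simp only [if_true]
          omega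
        · simp only [hji, if_false]
      rw [hrr, hgi] at hcl'
      rcases hcl' with h | h | h
      · exfalso; omega
      · exact (hB.memL _ _).1 h
      · exfalso
        obtain ⟨e, he, hek⟩ := comp_exLe _ _ h
        obtain ⟨helen, hee⟩ := comp_exOK D Ex hex e he
        have hpt := hP.isPt D β hD hβ p hp hx
        have h1 := hpt.rcm (fn e)
        have h2 : bl D.G (fn e) (fn e) = ((dn e (mv D.G e) : ℕ) : ℝ) := by
          rw [hA.dn_comm, hA.dn_eq, hC.mv_fn]
        have h3 : ((dn e e : ℕ) : ℝ) = ∑ i ∈ Finset.range (D.n + 2), fn e i ^ 2 := by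
          rw [hA.dn_eq, hA.dx_range e (D.n + 2) (fn e) helen]
          exact Finset.sum_congr rfl fun i _ => by ring
        have h4 : dx e (xc D β p) = ∑ i ∈ Finset.range (D.n + 2), fn e i * xc D β p i :=
          hA.dx_range e (D.n + 2) _ helen
        rw [h2, ← h3, ← h4] at h1
        have h5 : 0 ≤ dx e (xc D β p) := hA.dx_nonneg _ _ hpt.nn
        have h6 : dx e (xc D β p) ≤ (100000 : ℕ) * dx m (xc D β p) :=
          hB.leK 100000 e m hek _ hpt.nn
        have h7 : uval (wv D β m) p = dx m (xc D β p) := hP.uval_wv D β m p hlen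
        have h8 : (2 * ((dn e e : ℕ) : ℝ) + 100 * D.c * (100 * D.c)) ≤
            ((dn e (mv D.G e) : ℕ) : ℝ) := by exact_mod_cast hee
        have h9 : (100 * (D.c : ℝ)) ^ 2 ≤ (dx e (xc D β p)) ^ 2 := by nlinarith
        have h10 : 100 * (D.c : ℝ) ≤ dx e (xc D β p) := by
          by_contra hc
          push Not at hc
          nlinarith
        push_cast at h6
        rw [h7] at hu
        linarith
  intro w hw hu
  obtain ⟨m, hlen, rfl⟩ := hO.coord D β hD hβ w hw
  exact ⟨m, key _ m rfl hlen hw hu, rfl⟩

end Pool.Agent.Helper10.Fam
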